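import Pool.Agent.H10.GM.Targets1

/-!
# Excluded grid theorem, row GT: a good tuple
-/

set_option autoImplicit false

namespace Pool.Agent.H37.GM

open Pool.Agent.H55.GW Pool.Agent.H10.GM

/-- `S j` and `S k` are linked directly or through `O` -/
def RR {V : Type} {N : ℕ} (E : V → V → Prop) (O : Set V) (S : Fin N → Set V) (j k : Fin N) : Prop :=
  ∃ a ∈ S j, ∃ b ∈ S k, E a b ∨ ∃ u v, E a u ∧ RIn E O u v ∧ E v b

theorem RR_sy {V : Type} {N : ℕ} {E : V → V → Prop} (hE : Sy E) (O : Set V) (S : Fin N → Set V) :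
    Sy (RR E O S) := by
  rintro j k ⟨a, ha, b, hb, h | ⟨u, v, h1, h2, h3⟩⟩
  · exact ⟨b, hb, a, ha, Or.inl (hE _ _ h)⟩
  · exact ⟨b, hb, a, ha, Or.inr ⟨v, u, hE _ _ h3, RIn.sy hE h2, hE _ _ h1⟩⟩

theorem RR_link {V : Type} {N : ℕ} {E : V → V → Prop} (hE : Sy E) {O : Set V} {S : Fin N → Set V}
    (hS : ∀ j, Cn E (S j)) {j k : Fin N} (h : RR E O S j k) :
    ∃ L, L ⊆ O ∧ Cn E (S j ∪ L) ∧ Tch E (S j ∪ L) (S k) := by
  obtain ⟨a, ha, b, hb, h | ⟨u, v, h1, h2, h3⟩⟩ := h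
  · refine ⟨∅, Set.empty_subset _, ?_, a, Or.inl ha, b, hb, h⟩
    rw [Set.union_empty]
    exact hS j
  · refine ⟨{z | RIn E O u z}, fun z hz => RIn.right_mem hz, ?_, v, Or.inr h2, b, hb, h3⟩
    exact Cn.union_touch hE (hS j) (Cn.comp hE h2.left_mem) ⟨a, ha, u, RIn.refl h2.left_mem, h1⟩

theorem RR_conn {V : Type} {N : ℕ} {E : V → V → Prop} {W : Set V} {S : Fin N → Set V}
    (hW : Cn E W) (hS : ∀ j, Cn E (S j) ∧ S j ⊆ W) (hd : ∀ j j', j ≠ j' → Disjoint (S j) (S j'))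
    (j k : Fin N) : Relation.ReflTransGen (RR E (W \ ⋃ i, S i) S) j k := by
  set O := W \ ⋃ i, S i with hO
  obtain ⟨a, ha⟩ := (hS j).1.1
  obtain ⟨b, hb⟩ := (hS k).1.1
  have hab : RIn E W a b := hW.2 a ((hS j).2 ha) b ((hS k).2 hb)
  have huniq : ∀ {z : V} {l l' : Fin N}, z ∈ S l → z ∈ S l' → l = l' := by
    intro z l l' h1 h2
    by_contra hne
    exact Set.disjoint_left.1 (hd l l' hne) h1 h2
  have hcases : ∀ z ∈ W, (∃ l, z ∈ S l) ∨ z ∈ O := by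
    intro z hz
    by_cases h : ∃ l, z ∈ S l
    · exact Or.inl h
    · exact Or.inr ⟨hz, fun h' => h (Set.mem_iUnion.1 h')⟩
  have key := RIn.induct (p := fun z =>
    (∀ l, z ∈ S l → Relation.ReflTransGen (RR E O S) j l) ∧
    (z ∈ O → ∃ l, Relation.ReflTransGen (RR E O S) j l ∧ ∃ a ∈ S l, ∃ u ∈ O, E a u ∧ RIn E O u z))
    hab ?_ ?_
  · exact key.1 k hb
  · refine ⟨fun l hl => ?_, fun h => ?_⟩
    · rw [huniq ha hl]
    · exact absurd (Set.mem_iUnion.2 ⟨j, ha⟩) h.2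
  · rintro u v hu hv huv ⟨hp, hq⟩
    refine ⟨fun l hl => ?_, fun hvO => ?_⟩
    · rcases hcases u hu with ⟨m, hm⟩ | hm
      · exact (hp m hm).tail ⟨u, hm, v, hl, Or.inl huv⟩
      · obtain ⟨m, h1, c, hc, w, hw, hcw, hwu⟩ := hq hm
        exact h1.tail ⟨c, hc, v, hl, Or.inr ⟨w, u, hcw, hwu, huv⟩⟩
    · rcases hcases u hu with ⟨m, hm⟩ | hm
      · exact ⟨m, hp m hm, u, hm, v, hvO, huv, RIn.refl hvO⟩
      · obtain ⟨m, h1, c, hc, w, hw, hcw, hwu⟩ := hq hm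
        exact ⟨m, h1, c, hc, w, hw, hcw, hwu.tail huv hvO⟩

theorem pf_GT (hPS : T_PS) : T_GT := by
  intro r
  obtain ⟨N, hN, hR⟩ := hPS r
  refine ⟨N, hN, ?_⟩
  intro V E hE W S hW hS hd
  set O := W \ ⋃ i, S i with hO
  have hOS : ∀ j, Disjoint O (S j) := by
    intro j
    rw [Set.disjoint_left]
    intro z hz hz'
    exact hz.2 (Set.mem_iUnion.2 ⟨j, hz'⟩)
  have hOW : O ⊆ W := fun z hz => hz.1
  rcases hR (RR E O S) (RR_sy hE O S) (RR_conn hW hS hd) with ⟨t, ht, hp⟩ | ⟨x, t, ht, hp⟩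
  · have h1 : ∀ i, ∃ L : Set V, i + 1 < r → L ⊆ O ∧ Cn E (S (t i) ∪ L) ∧
        Tch E (S (t i) ∪ L) (S (t (i + 1))) := by
      intro i
      by_cases hi : i + 1 < r
      · obtain ⟨L, h⟩ := RR_link hE (fun j => (hS j).1) (hp i hi)
        exact ⟨L, fun _ => h⟩
      · exact ⟨∅, fun h => absurd h hi⟩
    choose L hL using h1
    refine ⟨t, L, ht, fun i hi => ?_⟩
    obtain ⟨h1, h2, h3⟩ := hL i hi
    exact ⟨h1.trans hOW, fun j _ => (hOS _).mono_left h1, h2, h3⟩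
  · have h1 : ∀ i, ∃ L : Set V, i + 1 < r → L ⊆ W ∧ (∀ j < r, Disjoint L (S (t j))) ∧
        Cn E (S (t i) ∪ L) ∧ Tch E (S (t i) ∪ L) (S (t (i + 1))) := by
      intro i
      by_cases hi : i + 1 < r
      · obtain ⟨L₁, h1, h2, h3⟩ := RR_link hE (fun j => (hS j).1)
          (RR_sy hE O S _ _ (hp i (by omega)).2)
        obtain ⟨L₂, h4, h5, h6⟩ := RR_link hE (fun j => (hS j).1) (hp (i + 1) hi).2
        refine ⟨L₁ ∪ (S x ∪ L₂), fun _ => ⟨?_, ?_, ?_, ?_⟩⟩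
        · exact Set.union_subset (h1.trans hOW) (Set.union_subset (hS x).2 (h4.trans hOW))
        · intro j hj
          rw [Set.disjoint_union_left, Set.disjoint_union_left]
          exact ⟨(hOS _).mono_left h1, hd _ _ (hp j hj).1.symm, (hOS _).mono_left h4⟩
        · rw [← Set.union_assoc]
          refine Cn.union_touch hE h2 h5 (h3.mono (le_refl _) Set.subset_union_left)
        · exact h6.mono (Set.subset_union_right.trans Set.subset_union_right) (le_refl _)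
      · exact ⟨∅, fun h => absurd h hi⟩
    choose L hL using h1
    exact ⟨t, L, ht, hL⟩

end Pool.Agent.H37.GM
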