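import Pool.Agent.H10.GM.Targets1

/-!
# Excluded grid theorem, row PTH: disjoint walks contain disjoint simple paths
-/

set_option autoImplicit false

namespace Pool.Agent.H37.GM

open Pool.Agent.H55.GW Pool.Agent.H10.GM

theorem pf_PTH : T_PTH := by
  intro V D p A B h
  obtain ⟨x, y, S, h, hd⟩ := h
  choose l hl hlS using fun i => (h i).2.2.exists_path
  have hpos : ∀ i, 0 < (l i).length := fun i => List.length_pos_of_mem (hl i).mem_left
  have hget : ∀ i t, t ≤ (l i).length - 1 → ∃ ht : t < (l i).length,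
      (l i).getD t (x i) = (l i)[t] := by
    intro i t ht
    have h1 : t < (l i).length := by have := hpos i; omega
    exact ⟨h1, List.getD_eq_getElem _ _ h1⟩
  refine ⟨fun i t => (l i).getD t (x i), fun i => (l i).length - 1, ?_, ?_, ?_, ?_⟩
  · intro j
    refine ⟨?_, ?_⟩
    · intro t ht
      obtain ⟨h1, e1⟩ := hget j t (by omega)
      obtain ⟨h2, e2⟩ := hget j (t + 1) (by omega)
      show D ((l j).getD t (x j)) ((l j).getD (t + 1) (x j))
      rw [e1, e2]
      exact List.isChain_iff_getElem.1 (hl j).1 t h2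
    · intro s hs t ht hst
      obtain ⟨h1, e1⟩ := hget j s hs
      obtain ⟨h2, e2⟩ := hget j t ht
      have h3 : (l j)[s] = (l j)[t] := by rw [← e1, ← e2]; exact hst
      exact (List.Nodup.getElem_inj_iff (hl j).2.1).1 h3
  · intro j
    obtain ⟨h1, e1⟩ := hget j 0 (by omega)
    show (l j).getD 0 (x j) ∈ A
    rw [e1]
    have h2 := (hl j).2.2.1
    rw [List.head?_eq_getElem?, List.getElem?_eq_getElem h1] at h2
    rw [Option.some.inj h2]
    exact (h j).1
  · intro j
    obtain ⟨h1, e1⟩ := hget j ((l j).length - 1) (le_refl _)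
    show (l j).getD ((l j).length - 1) (x j) ∈ B
    rw [e1]
    have h2 := (hl j).2.2.2
    rw [List.getLast?_eq_getElem?, List.getElem?_eq_getElem h1] at h2
    rw [Option.some.inj h2]
    exact (h j).2.1
  · intro j j' hjj s hs t ht hst
    obtain ⟨h1, e1⟩ := hget j s hs
    obtain ⟨h2, e2⟩ := hget j' t ht
    have h3 : (l j)[s] = (l j')[t] := by rw [← e1, ← e2]; exact hst
    exact Set.disjoint_left.1 (hd j j' hjj) (hlS j _ (List.getElem_mem h1))
      (by rw [h3]; exact hlS j' _ (List.getElem_mem h2))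

end Pool.Agent.H37.GM
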